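import Mathlib
import Pool.Agent.Q1.M5.Defs
import Pool.Agent.H79.FM.Inc3
import Pool.Agent.H19.RH.Curve

set_option autoImplicit false
open Finset Filter Topology

/-! # Crossing events of grid polygons and of subsets of the plane, I: lattice

`CI` (side to wired arc) against the crossing event `Cross` of a set of the plane. -/

namespace Pool.Agent.H33.C3

open Pool.Agent.H75.Perc (dir dir_cases Co Ad IsUnit4 isUnit4_neg unit_cases Pr Pr_mono Pr_congr
  Pr_restrict Bx mem_Bx)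
open Pool.Agent.Q1.M4 (Cell Reg Om rect mem_rect mem_Om IsSide nextSide tail head PType inV inRect pt
  udir_cases len frontier_Om)
open Pool.Agent.Q1.M5 (sV sL WL EL TV CT CI App)
open Pool.Agent.H49.Q1 (gs gcell mem_gs onCell CJ)
open Pool.Agent.H57.FM (ps Cross PC ps_re ps_im)

/-! ### Edges -/

/-- the lines with index in `[-K, K]` have gaps at least two -/
def Gp (K : ℤ) (X : ℤ → ℤ) : Prop := ∀ i, -K ≤ i → i ≤ K → X i + 2 ≤ X (i + 1)

/-- the indices of the cells are in `[-K, K]` -/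
def InK (K : ℤ) (Q : Finset Cell) : Prop :=
  ∀ c ∈ Q, (-K ≤ c.1 ∧ c.1 ≤ K) ∧ (-K ≤ c.2 ∧ c.2 ≤ K)

lemma exists_InK (Q : Finset Cell) (n : ℤ) : ∃ K : ℤ, InK (K - n) Q := by
  classical
  refine ⟨(∑ c ∈ Q, (|c.1| + |c.2|)) + n, fun c hc => ?_⟩
  have h1 : |c.1| + |c.2| ≤ ∑ c ∈ Q, (|c.1| + |c.2|) :=
    single_le_sum (f := fun c : Cell => |c.1| + |c.2|) (fun d _ => by positivity) hc
  have h2 := abs_nonneg c.1
  have h3 := abs_nonneg c.2
  have h4 := abs_le.1 (show |c.1| ≤ ∑ c ∈ Q, (|c.1| + |c.2|) by linarith)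
  have h5 := abs_le.1 (show |c.2| ≤ ∑ c ∈ Q, (|c.1| + |c.2|) by linarith)
  rw [add_sub_cancel_right]
  exact ⟨h4, h5⟩

lemma InK.mono {K L : ℤ} (h : K ≤ L) {Q : Finset Cell} (hQ : InK K Q) : InK L Q := by
  intro c hc
  have := hQ c hc
  omega

lemma strip_step {X : ℤ → ℤ} (hX : StrictMono X) {K : ℤ} (gx : Gp K X) {i j s : ℤ}
    (hi : -K ≤ i ∧ i ≤ K) (hj : -K ≤ j ∧ j ≤ K) (h1 : X i ≤ s ∧ s ≤ X (i + 1))
    (h2 : X j ≤ s + 1 ∧ s + 1 ≤ X (j + 1)) :
    (X i ≤ s + 1 ∧ s + 1 ≤ X (i + 1)) ∨ (X j ≤ s ∧ s ≤ X (j + 1)) := by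
  by_contra hcon
  have h3 : s = X (i + 1) := by omega
  have h4 : X j = s + 1 := by omega
  have h5 : i + 1 < j := by
    rw [← hX.lt_iff_lt]; omega
  have h6 := gx (i + 1) (by omega) (by omega)
  have h7 : X (i + 1 + 1) ≤ X j := hX.monotone (by omega)
  omega

variable {Q : Finset Cell} {X Y : ℤ → ℤ}

/-- an edge with both end points in the region is an edge of the region -/
lemma edge_gs (hX : StrictMono X) (hY : StrictMono Y) {K : ℤ} (gx : Gp K X) (gy : Gp K Y)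
    (hQ : InK K Q) {u v : ℤ × ℤ} (h : IsUnit4 (v - u)) (hu : inV Q X Y u) (hv : inV Q X Y v) :
    u + v ∈ gs X Y Q := by
  have key : ∀ u v : ℤ × ℤ, ((v.1 = u.1 + 1 ∧ v.2 = u.2) ∨ (v.1 = u.1 ∧ v.2 = u.2 + 1)) →
      inV Q X Y u → inV Q X Y v → u + v ∈ gs X Y Q := by
    intro u v h hu hv
    obtain ⟨c, hc, c1, c2⟩ := hu
    obtain ⟨d, hd, d1, d2⟩ := hv
    have kc := hQ c hc
    have kd := hQ d hd
    rw [mem_gs]
    rcases h with ⟨h1, h2⟩ | ⟨h1, h2⟩
    · rcases strip_step hX gx kc.1 kd.1 c1 (by rw [← h1]; exact d1) with h3 | h3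
      · refine ⟨c, hc, ?_⟩
        unfold gcell
        rw [mem_Bx]
        simp only [Prod.fst_add, Prod.snd_add]
        omega
      · refine ⟨d, hd, ?_⟩
        unfold gcell
        rw [mem_Bx]
        simp only [Prod.fst_add, Prod.snd_add]
        omega
    · rcases strip_step hY gy kc.2 kd.2 c2 (by rw [← h2]; exact d2) with h3 | h3
      · refine ⟨c, hc, ?_⟩
        unfold gcell
        rw [mem_Bx]
        simp only [Prod.fst_add, Prod.snd_add]
        omega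
      · refine ⟨d, hd, ?_⟩
        unfold gcell
        rw [mem_Bx]
        simp only [Prod.fst_add, Prod.snd_add]
        omega
  rcases unit_cases h with h1 | h1 | h1 | h1
  · exact key u v (Or.inl h1) hu hv
  · exact key u v (Or.inr h1) hu hv
  · rw [add_comm]
    exact key v u (Or.inl (by omega)) hv hu
  · rw [add_comm]
    exact key v u (Or.inr (by omega)) hv hu

lemma inV_of_gs {u v : ℤ × ℤ} (h : IsUnit4 (v - u)) (he : u + v ∈ gs X Y Q) :
    inV Q X Y u ∧ inV Q X Y v := by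
  rw [mem_gs] at he
  obtain ⟨c, hc, he⟩ := he
  unfold gcell at he
  rw [mem_Bx] at he
  simp only [Prod.fst_add, Prod.snd_add] at he
  have h1 := unit_cases h
  refine ⟨⟨c, hc, ?_, ?_⟩, ⟨c, hc, ?_, ?_⟩⟩ <;> omega

lemma sV_of_sL {s : Cell × ℤ} {u v : ℤ × ℤ} (h : IsUnit4 (v - u)) (he : u + v ∈ sL X Y s) :
    sV X Y s u ∧ sV X Y s v := by
  unfold sL gcell at he
  rw [mem_filter, mem_Bx] at he
  simp only [Prod.fst_add, Prod.snd_add] at he
  have h1 := unit_cases h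
  unfold sV onCell Pool.Agent.H75.Perc.inB
  omega

variable {P : PType}

lemma inV_of_sV {n : ℕ} {u : ℤ × ℤ} (h : sV X Y (P.side n) u) : inV P.Q X Y u := by
  refine ⟨(P.side n).1, (P.side_isSide n).1, ?_⟩
  exact h.1

/-- `CI` implies a crossing of any set which contains the region -/
lemma cross_of_CI {D A B : Set ℂ} {δ : ℝ} (hδ : 0 < δ) {n1 n2 : ℕ}
    (hD : ∀ v, inV P.Q X Y v → ps δ v ∈ D)
    (hA : ∀ n, n1 ≤ n → n < n2 → ∀ v, sV X Y (P.side n) v → ps δ v ∈ A)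
    (hB : ∀ v, TV P X Y v → ps δ v ∈ B) {ω : Finset (ℤ × ℤ)} (hω : ω ⊆ EL P X Y)
    (h : CI P X Y n1 n2 ω) : Cross D A B δ ω := by
  obtain ⟨n, h1, h2, v, hv, w, hw, hco⟩ := h
  have hu : ps δ v ∈ D := hD v (inV_of_sV hv)
  have dist0 : ∀ {C : Set ℂ} {z : ℂ}, z ∈ C → ∃ a ∈ C, dist z a ≤ δ := fun {C z} hz =>
    ⟨z, hz, by rw [dist_self]; exact hδ.le⟩
  have key : Cross D A B δ ω ∨
      Relation.ReflTransGen (fun x y => Ad ω x y ∧ ps δ y ∈ D) v w := by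
    clear hw
    induction hco with
    | refl => exact Or.inr Relation.ReflTransGen.refl
    | @tail x y _ hxy ih =>
      rcases ih with ih | ih
      · exact Or.inl ih
      · rcases mem_union.1 hxy.2 with he | he
        · right
          refine ih.tail ⟨⟨hxy.1, he⟩, hD y ?_⟩
          have := hω he
          unfold EL at this
          exact (inV_of_gs hxy.1 (mem_sdiff.1 this).1).2
        · left
          unfold WL at he
          rw [mem_biUnion] at he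
          obtain ⟨i, hi, he⟩ := he
          rw [mem_Ico] at hi
          have hT : TV P X Y x := ⟨i, hi.1, hi.2, (sV_of_sL hxy.1 he).1⟩
          exact ⟨v, x, hu, dist0 (hA n h1 h2 v hv), dist0 (hB x hT), ih⟩
  rcases key with key | key
  · exact key
  · exact ⟨v, w, hu, dist0 (hA n h1 h2 v hv), dist0 (hB w hw), key⟩

/-- a crossing of a set with the same lattice points implies `CI` -/
lemma CI_of_cross (hX : StrictMono X) (hY : StrictMono Y) {K : ℤ} (gx : Gp K X) (gy : Gp K Y)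
    (hQ : InK K P.Q) {D A B : Set ℂ} {δ : ℝ} {n1 n2 : ℕ}
    (hD : ∀ v, ps δ v ∈ D → inV P.Q X Y v)
    (hA : ∀ v, inV P.Q X Y v → (∃ a ∈ A, dist (ps δ v) a ≤ δ) →
      ∃ n, n1 ≤ n ∧ n < n2 ∧ sV X Y (P.side n) v)
    (hB : ∀ v, inV P.Q X Y v → (∃ b ∈ B, dist (ps δ v) b ≤ δ) → TV P X Y v)
    {ω : Finset (ℤ × ℤ)} (h : Cross D A B δ ω) : CI P X Y n1 n2 (ω ∩ EL P X Y) := by
  obtain ⟨u, v, hu, ha, hb, hp⟩ := h
  have hu' := hD u hu
  obtain ⟨n, h1, h2, hn⟩ := hA u hu' ha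
  have key : inV P.Q X Y v ∧ Co (ω ∩ EL P X Y ∪ WL P X Y) u v := by
    clear hb
    induction hp with
    | refl => exact ⟨hu', Relation.ReflTransGen.refl⟩
    | @tail x y _ hxy ih =>
      have hy := hD y hxy.2
      refine ⟨hy, ih.2.tail ⟨hxy.1.1, ?_⟩⟩
      have he := edge_gs hX hY gx gy hQ hxy.1.1 ih.1 hy
      by_cases hW : x + y ∈ WL P X Y
      · exact mem_union_right _ hW
      · refine mem_union_left _ (mem_inter.2 ⟨hxy.1.2, ?_⟩)
        unfold EL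
        exact mem_sdiff.2 ⟨he, hW⟩
  exact ⟨n, h1, h2, u, hn, v, hB v key.1 hb, key.2⟩

/-- upper bound -/
lemma Pr_CI_le {D A B : Set ℂ} (hDb : Bornology.IsBounded D) {δ : ℝ} (hδ : 0 < δ) {n1 n2 : ℕ}
    (hD : ∀ v, inV P.Q X Y v → ps δ v ∈ D)
    (hA : ∀ n, n1 ≤ n → n < n2 → ∀ v, sV X Y (P.side n) v → ps δ v ∈ A)
    (hB : ∀ v, TV P X Y v → ps δ v ∈ B) :
    Pr (EL P X Y) (CI P X Y n1 n2) ≤ PC D A B δ := by
  rw [Pool.Agent.H57.FM.PC_eq hDb hδ (E := Pool.Agent.H57.FM.EL D δ ∪ EL P X Y) subset_union_left,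
    ← Pr_restrict (subset_union_right : EL P X Y ⊆ Pool.Agent.H57.FM.EL D δ ∪ EL P X Y)]
  refine Pr_mono fun ω _ h => ?_
  exact (cross_of_CI hδ hD hA hB inter_subset_right h).mono_set inter_subset_left

/-- lower bound -/
lemma le_Pr_CI (hX : StrictMono X) (hY : StrictMono Y) {K : ℤ} (gx : Gp K X) (gy : Gp K Y)
    (hQ : InK K P.Q) {D A B : Set ℂ} (hDb : Bornology.IsBounded D) {δ : ℝ} (hδ : 0 < δ) {n1 n2 : ℕ}
    (hD : ∀ v, ps δ v ∈ D → inV P.Q X Y v)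
    (hA : ∀ v, inV P.Q X Y v → (∃ a ∈ A, dist (ps δ v) a ≤ δ) →
      ∃ n, n1 ≤ n ∧ n < n2 ∧ sV X Y (P.side n) v)
    (hB : ∀ v, inV P.Q X Y v → (∃ b ∈ B, dist (ps δ v) b ≤ δ) → TV P X Y v) :
    PC D A B δ ≤ Pr (EL P X Y) (CI P X Y n1 n2) := by
  rw [Pool.Agent.H57.FM.PC_eq hDb hδ (E := Pool.Agent.H57.FM.EL D δ ∪ EL P X Y) subset_union_left,
    ← Pr_restrict (subset_union_right : EL P X Y ⊆ Pool.Agent.H57.FM.EL D δ ∪ EL P X Y)]
  exact Pr_mono fun ω _ h => CI_of_cross hX hY gx gy hQ hD hA hB h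

end Pool.Agent.H33.C3
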