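import Mathlib
import Pool.Agent.H33.C3.Lat

set_option autoImplicit false
open Finset Filter Topology

/-! # Crossing events of grid polygons, II: positions -/

namespace Pool.Agent.H33.C3

open Pool.Agent.H75.Perc (dir dir_cases Co Ad IsUnit4)
open Pool.Agent.Q1.M4 (Cell Reg Om rect mem_rect mem_Om IsSide nextSide tail head PType inV inRect pt
  udir udir_cases len frontier_Om pt_head)
open Pool.Agent.Q1.M5 (sV sL WL EL TV CT CI App)
open Pool.Agent.H49.Q1 (onCell)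
open Pool.Agent.H57.FM (ps ps_re ps_im)
open Pool.Agent.H19.RH (spt sidePt_spt)

/-- rescaled grid lines -/
noncomputable def xr (R : ℝ) (X : ℤ → ℤ) : ℤ → ℝ := fun i => (X i : ℝ) / R

lemma xr_mono {R : ℝ} (hR : 0 < R) {X : ℤ → ℤ} (hX : StrictMono X) : StrictMono (xr R X) := by
  intro i j h
  have h1 : (X i : ℝ) < (X j : ℝ) := by exact_mod_cast hX h
  exact div_lt_div_of_pos_right h1 hR

variable {Q : Finset Cell} {X Y : ℤ → ℤ} {R : ℝ}

lemma xr_le (hR : 0 < R) {i a : ℤ} : (xr R X i ≤ 1 / R * (a : ℝ) ↔ X i ≤ a) ∧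
    (1 / R * (a : ℝ) ≤ xr R X i ↔ a ≤ X i) ∧ (1 / R * (a : ℝ) = xr R X i ↔ a = X i) := by
  have e : 1 / R * (a : ℝ) = (a : ℝ) / R := by ring
  rw [e]
  unfold xr
  refine ⟨?_, ?_, ?_⟩
  · rw [div_le_div_iff_of_pos_right hR]; exact Int.cast_le
  · rw [div_le_div_iff_of_pos_right hR]; exact Int.cast_le
  · rw [div_left_inj' hR.ne']; exact Int.cast_inj

lemma ps_mem_rect (hR : 0 < R) {c : Cell} {v : ℤ × ℤ} :
    ps (1 / R) v ∈ rect (xr R X) (xr R Y) c ↔ inRect X Y c v := by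
  rw [mem_rect, ps_re, ps_im, (xr_le hR).1, (xr_le hR).2.1, (xr_le hR).1, (xr_le hR).2.1]
  rfl

lemma ps_mem_Reg (hR : 0 < R) {v : ℤ × ℤ} :
    ps (1 / R) v ∈ Reg Q (xr R X) (xr R Y) ↔ inV Q X Y v := by
  constructor
  · rintro ⟨c, hc, h⟩
    exact ⟨c, hc, (ps_mem_rect hR).1 h⟩
  · rintro ⟨c, hc, h⟩
    exact ⟨c, hc, (ps_mem_rect hR).2 h⟩

/-- a lattice point at distance less than one from the region is in the region -/
lemma inV_of_near (hR : 0 < R) {v : ℤ × ℤ}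
    (h : ps (1 / R) v ∈ Metric.thickening (9 / 10 / R) (Reg Q (xr R X) (xr R Y))) : inV Q X Y v := by
  rw [Metric.mem_thickening_iff] at h
  obtain ⟨w, ⟨c, hc, ⟨h1, h2⟩, h3, h4⟩, h5⟩ := h
  rw [dist_eq_norm] at h5
  have h6 := (Complex.abs_re_le_norm (ps (1 / R) v - w)).trans_lt h5
  have h7 := (Complex.abs_im_le_norm (ps (1 / R) v - w)).trans_lt h5
  rw [Complex.sub_re, ps_re, abs_lt] at h6
  rw [Complex.sub_im, ps_im, abs_lt] at h7
  unfold xr at h1 h2 h3 h4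
  have conv : ∀ {a b : ℤ} , (a : ℝ) / R < 1 / R * (b : ℝ) + 9 / 10 / R → a ≤ b := by
    intro a b hab
    have e : 1 / R * (b : ℝ) + 9 / 10 / R = ((b : ℝ) + 9 / 10) / R := by ring
    rw [e, div_lt_div_iff_of_pos_right hR] at hab
    have : (a : ℝ) < (b : ℝ) + 1 := by linarith
    have : a < b + 1 := by exact_mod_cast this
    omega
  have conv' : ∀ {a b : ℤ} , 1 / R * (b : ℝ) < (a : ℝ) / R + 9 / 10 / R → b ≤ a := by
    intro a b hab
    have e : (a : ℝ) / R + 9 / 10 / R = ((a : ℝ) + 9 / 10) / R := by ring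
    have e2 : 1 / R * (b : ℝ) = (b : ℝ) / R := by ring
    rw [e, e2, div_lt_div_iff_of_pos_right hR] at hab
    have : (b : ℝ) < (a : ℝ) + 1 := by linarith
    have : b < a + 1 := by exact_mod_cast this
    omega
  exact ⟨c, hc, ⟨conv (by linarith), conv' (by linarith)⟩, conv (by linarith), conv' (by linarith)⟩

/-! ### Sides -/

/-- the closed side -/
def OnR (x y : ℤ → ℝ) (s : Cell × ℤ) (z : ℂ) : Prop :=
  z ∈ rect x y s.1 ∧ (s.2 % 4 = 0 → z.im = y s.1.2) ∧ (s.2 % 4 = 1 → z.re = x (s.1.1 + 1)) ∧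
    (s.2 % 4 = 2 → z.im = y (s.1.2 + 1)) ∧ (s.2 % 4 = 3 → z.re = x s.1.1)

lemma onR_ps (hR : 0 < R) {s : Cell × ℤ} {v : ℤ × ℤ} :
    OnR (xr R X) (xr R Y) s (ps (1 / R) v) ↔ sV X Y s v := by
  unfold OnR sV onCell
  rw [ps_mem_rect hR, ps_re, ps_im, (xr_le hR).2.2, (xr_le hR).2.2, (xr_le hR).2.2,
    (xr_le hR).2.2]
  rfl

lemma onR_spt {x y : ℤ → ℝ} (hx : StrictMono x) (hy : StrictMono y) {s : Cell × ℤ} {z : ℂ} :
    OnR x y s z ↔ ∃ t ∈ Set.Icc (0 : ℝ) 1, z = spt x y s t := by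
  obtain ⟨⟨i, j⟩, k⟩ := s
  have X1 : x i < x (i + 1) := hx (by omega)
  have Y1 : y j < y (j + 1) := hy (by omega)
  have param : ∀ {a b s : ℝ}, a < b → a ≤ s → s ≤ b → ∃ t ∈ Set.Icc (0 : ℝ) 1,
      s = a + t * (b - a) := by
    intro a b s h1 h2 h3
    have h4 : 0 < b - a := by linarith
    refine ⟨(s - a) / (b - a), ⟨div_nonneg (by linarith) h4.le, ?_⟩, ?_⟩
    · rw [div_le_one h4]; linarith
    · rw [div_mul_cancel₀ _ h4.ne']; ring
  have param' : ∀ {a b s : ℝ}, a < b → a ≤ s → s ≤ b → ∃ t ∈ Set.Icc (0 : ℝ) 1,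
      s = b - t * (b - a) := by
    intro a b s h1 h2 h3
    have h4 : 0 < b - a := by linarith
    refine ⟨(b - s) / (b - a), ⟨div_nonneg (by linarith) h4.le, ?_⟩, ?_⟩
    · rw [div_le_one h4]; linarith
    · rw [div_mul_cancel₀ _ h4.ne']; ring
  unfold OnR spt
  rw [mem_rect]
  simp only
  rcases udir_cases k with ⟨a, e⟩ | ⟨a, e⟩ | ⟨a, e⟩ | ⟨a, e⟩
  · have h2 : k % 2 = 0 := by omega
    constructor
    · rintro ⟨⟨⟨g1, g2⟩, g3, g4⟩, g5, -⟩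
      obtain ⟨t, ht, e1⟩ := param X1 g1 g2
      refine ⟨t, ht, ?_⟩
      apply Complex.ext
      · simp [pt, tail, len, a, h2, e]; exact e1
      · simp [pt, tail, len, a, h2, e]; exact g5 a
    · rintro ⟨t, ⟨t0, t1⟩, rfl⟩
      simp [pt, tail, len, a, h2, e]
      refine ⟨⟨by nlinarith, by nlinarith⟩, by linarith⟩
  · have h2 : k % 2 = 1 := by omega
    constructor
    · rintro ⟨⟨⟨g1, g2⟩, g3, g4⟩, -, g5, -⟩
      obtain ⟨t, ht, e1⟩ := param Y1 g3 g4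
      refine ⟨t, ht, ?_⟩
      apply Complex.ext
      · simp [pt, tail, len, a, h2, e]; exact g5 a
      · simp [pt, tail, len, a, h2, e]; exact e1
    · rintro ⟨t, ⟨t0, t1⟩, rfl⟩
      simp [pt, tail, len, a, h2, e]
      refine ⟨by linarith, by nlinarith, by nlinarith⟩
  · have h2 : k % 2 = 0 := by omega
    constructor
    · rintro ⟨⟨⟨g1, g2⟩, g3, g4⟩, -, -, g5, -⟩
      obtain ⟨t, ht, e1⟩ := param' X1 g1 g2
      refine ⟨t, ht, ?_⟩
      apply Complex.ext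
      · simp [pt, tail, len, a, h2, e]; linarith
      · simp [pt, tail, len, a, h2, e]; exact g5 a
    · rintro ⟨t, ⟨t0, t1⟩, rfl⟩
      simp [pt, tail, len, a, h2, e]
      refine ⟨⟨by nlinarith, by nlinarith⟩, by linarith⟩
  · have h2 : k % 2 = 1 := by omega
    constructor
    · rintro ⟨⟨⟨g1, g2⟩, g3, g4⟩, -, -, -, g5⟩
      obtain ⟨t, ht, e1⟩ := param' Y1 g3 g4
      refine ⟨t, ht, ?_⟩
      apply Complex.ext
      · simp [pt, tail, len, a, h2, e]; exact g5 a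
      · simp [pt, tail, len, a, h2, e]; linarith
    · rintro ⟨t, ⟨t0, t1⟩, rfl⟩
      simp [pt, tail, len, a, h2, e]
      refine ⟨by linarith, by nlinarith, by nlinarith⟩

variable {P : PType}

lemma line_step {X : ℤ → ℤ} (hX : StrictMono X) (hR : 0 < R) {i s : ℤ} {a : ℝ}
    (h1 : X i ≤ s ∧ s ≤ X (i + 1)) (h2 : |a - 1 / R * (s : ℝ)| ≤ 1 / R) :
    ∃ i', (X i' ≤ s ∧ s ≤ X (i' + 1)) ∧ (xr R X i' ≤ a ∧ a ≤ xr R X (i' + 1)) := by
  rw [abs_le] at h2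
  have up : ∀ {k : ℤ}, s + 1 ≤ X k → a ≤ xr R X k := by
    intro k hk
    have e : (s : ℝ) + 1 ≤ X k := by exact_mod_cast hk
    unfold xr
    rw [le_div_iff₀ hR]
    have h3 : a ≤ ((s : ℝ) + 1) / R := by
      have : 1 / R * (s : ℝ) + 1 / R = ((s : ℝ) + 1) / R := by ring
      linarith [h2.2]
    rw [le_div_iff₀ hR] at h3
    linarith
  have lo : ∀ {k : ℤ}, X k + 1 ≤ s → xr R X k ≤ a := by
    intro k hk
    have e : (X k : ℝ) + 1 ≤ s := by exact_mod_cast hk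
    unfold xr
    rw [div_le_iff₀ hR]
    have h3 : ((s : ℝ) - 1) / R ≤ a := by
      have : 1 / R * (s : ℝ) - 1 / R = ((s : ℝ) - 1) / R := by ring
      linarith [h2.1]
    rw [div_le_iff₀ hR] at h3
    linarith
  have s0 : X (i + 1) < X (i + 1 + 1) := hX (by omega)
  have s1 : X (i - 1) < X i := hX (by omega)
  have s2 : X i < X (i + 1) := hX (by omega)
  rcases le_total (1 / R * (s : ℝ)) a with h3 | h3
  · by_cases h4 : s < X (i + 1)
    · refine ⟨i, h1, ?_, up (by omega)⟩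
      exact ((xr_le hR).1.2 h1.1).trans h3
    · have h5 : s = X (i + 1) := by omega
      refine ⟨i + 1, ⟨by omega, by omega⟩, ?_, up (by omega)⟩
      exact ((xr_le hR).1.2 (by omega)).trans h3
  · by_cases h4 : X i < s
    · refine ⟨i, h1, lo (by omega), ?_⟩
      exact h3.trans ((xr_le hR).2.1.2 h1.2)
    · have h5 : s = X i := by omega
      have h6 : i - 1 + 1 = i := by ring
      refine ⟨i - 1, ⟨by omega, by rw [h6]; omega⟩, lo (by omega), ?_⟩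
      rw [h6]
      exact h3.trans ((xr_le hR).2.1.2 (by omega))

/-- a vertex of the region with a point outside of the region near it is on the boundary -/
lemma bd_vertex (hX : StrictMono X) (hY : StrictMono Y) (hR : 0 < R) {u : ℤ × ℤ}
    (hu : inV P.Q X Y u) {p : ℂ} (hp : p ∉ Reg P.Q (xr R X) (xr R Y))
    (h : ‖ps (1 / R) u - p‖ ≤ 1 / R) : ∃ n < P.N, sV X Y (P.side n) u := by
  have hx := xr_mono hR hX
  have hy := xr_mono hR hY
  by_cases hO : ps (1 / R) u ∈ Om P.Q (xr R X) (xr R Y)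
  · exfalso
    rw [mem_Om hx hy] at hO
    obtain ⟨c, hc, h1, h2⟩ := hu
    have h3 := (Complex.abs_re_le_norm (ps (1 / R) u - p)).trans h
    have h4 := (Complex.abs_im_le_norm (ps (1 / R) u - p)).trans h
    rw [Complex.sub_re, ps_re, abs_sub_comm] at h3
    rw [Complex.sub_im, ps_im, abs_sub_comm] at h4
    obtain ⟨i, hi, hi'⟩ := line_step hX hR h1 h3
    obtain ⟨j, hj, hj'⟩ := line_step hY hR h2 h4
    apply hp
    exact ⟨(i, j), hO.2 (i, j) ((ps_mem_rect hR).2 ⟨hi, hj⟩), hi', hj'⟩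
  · have hf : ps (1 / R) u ∈ frontier (Om P.Q (xr R X) (xr R Y)) := by
      rw [frontier_Om hx hy]
      exact ⟨(ps_mem_Reg hR).2 hu, hO⟩
    obtain ⟨n, hn, t, ht, e⟩ := P.frontier_cover hx hy hf
    refine ⟨n, hn, (onR_ps hR).1 ((onR_spt hx hy).2 ⟨t, ht, ?_⟩)⟩
    rw [← sidePt_spt]
    exact e

/-! ### Perturbation -/

/-- lattice grid near the grid `x`, `y` -/
structure Near (K : ℤ) (κ : ℝ) (x y : ℤ → ℝ) (R : ℝ) (X Y : ℤ → ℤ) : Prop where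
  hX : StrictMono X
  hY : StrictMono Y
  R0 : 0 < R
  gx : Gp K X
  gy : Gp K Y
  nx : ∀ i, -K ≤ i → i ≤ K + 1 → |xr R X i - x i| ≤ κ
  ny : ∀ i, -K ≤ i → i ≤ K + 1 → |xr R Y i - y i| ≤ κ

lemma gap_ev {x : ℤ → ℝ} (hx : StrictMono x) {R : ℕ → ℝ} {X : ℕ → ℤ → ℤ}
    (hR : Tendsto R atTop atTop) (hX : ∀ i, Tendsto (fun j => (X j i : ℝ) / R j) atTop (𝓝 (x i)))
    (i : ℤ) : ∀ᶠ j in atTop, X j i + 2 ≤ X j (i + 1) := by
  have h1 : x i < x (i + 1) := hx (by omega)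
  have h2 := (hX (i + 1)).sub (hX i)
  set g : ℝ := (x (i + 1) - x i) / 2 with hg
  have hg0 : 0 < g := by rw [hg]; linarith
  have h3 := h2.eventually (lt_mem_nhds (show g < x (i + 1) - x i by rw [hg]; linarith))
  filter_upwards [h3, hR.eventually_ge_atTop (2 / g), hR.eventually_gt_atTop 0] with j k1 k2 k3
  rw [← sub_div, lt_div_iff₀ k3] at k1
  rw [div_le_iff₀ hg0] at k2
  have h4 : (X j i : ℝ) + 2 < X j (i + 1) := by nlinarith
  have h5 : ((X j i + 2 : ℤ) : ℝ) < (X j (i + 1) : ℤ) := by push_cast; exact h4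
  exact (Int.cast_lt.1 h5).le

lemma near_of_app {x y : ℤ → ℝ} (hx : StrictMono x) (hy : StrictMono y) {R : ℕ → ℝ}
    {X Y : ℕ → ℤ → ℤ} (h : App x y R X Y) (K : ℤ) {κ : ℝ} (hκ : 0 < κ) :
    ∀ᶠ j in atTop, Near K κ x y (R j) (X j) (Y j) := by
  have hR := h.app.R_top
  have g1 : ∀ᶠ j in atTop, ∀ i ∈ Finset.Icc (-K) K, X j i + 2 ≤ X j (i + 1) :=
    (Filter.eventually_all_finset _).2 fun i _ => gap_ev hx hR h.app.X_lim i
  have g2 : ∀ᶠ j in atTop, ∀ i ∈ Finset.Icc (-K) K, Y j i + 2 ≤ Y j (i + 1) :=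
    (Filter.eventually_all_finset _).2 fun i _ => gap_ev hy hR h.app.Y_lim i
  have near : ∀ {X : ℕ → ℤ → ℤ} {x : ℤ → ℝ},
      (∀ i, Tendsto (fun j => (X j i : ℝ) / R j) atTop (𝓝 (x i))) →
      ∀ᶠ j in atTop, ∀ i ∈ Finset.Icc (-K) (K + 1), |xr (R j) (X j) i - x i| ≤ κ := by
    intro X x hX
    refine (Filter.eventually_all_finset _).2 fun i _ => ?_
    have := (hX i).eventually (Metric.closedBall_mem_nhds (x i) hκ)
    filter_upwards [this] with j hj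
    rw [← Real.dist_eq]
    exact hj
  filter_upwards [g1, g2, near h.app.X_lim, near h.app.Y_lim, h.mono,
    hR.eventually_gt_atTop 0] with j a1 a2 a3 a4 a5 a6
  exact ⟨a5.1, a5.2, a6, fun i h1 h2 => a1 i (Finset.mem_Icc.2 ⟨h1, h2⟩),
    fun i h1 h2 => a2 i (Finset.mem_Icc.2 ⟨h1, h2⟩),
    fun i h1 h2 => a3 i (Finset.mem_Icc.2 ⟨h1, h2⟩),
    fun i h1 h2 => a4 i (Finset.mem_Icc.2 ⟨h1, h2⟩)⟩

section near

variable {K : ℤ} {κ : ℝ} {x y : ℤ → ℝ}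

lemma clamp {a b a' b' s κ : ℝ} (h1 : a ≤ s) (h2 : s ≤ b) (h3 : |a - a'| ≤ κ) (h4 : |b - b'| ≤ κ)
    (h5 : a' ≤ b') : ∃ s', a' ≤ s' ∧ s' ≤ b' ∧ |s - s'| ≤ κ := by
  rw [abs_le] at h3 h4
  have hκ : 0 ≤ κ := by linarith
  rcases le_total a' s with h6 | h6
  · rcases le_total s b' with h7 | h7
    · exact ⟨s, h6, h7, by rw [sub_self, abs_zero]; exact hκ⟩
    · exact ⟨b', h5, le_rfl, by rw [abs_le]; constructor <;> linarith⟩
  · exact ⟨a', le_rfl, h5, by rw [abs_le]; constructor <;> linarith⟩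

lemma norm_le_of {z w : ℂ} {κ : ℝ} (h1 : |z.re - w.re| ≤ κ) (h2 : |z.im - w.im| ≤ κ) :
    ‖z - w‖ ≤ 2 * κ := by
  refine (Complex.norm_le_abs_re_add_abs_im _).trans ?_
  rw [Complex.sub_re, Complex.sub_im]
  linarith

/-- points of the lattice region are near the region -/
lemma Near.reg (H : Near K κ x y R X Y) (hx : StrictMono x) (hy : StrictMono y) (hQ : InK K Q)
    {w : ℂ} (hw : w ∈ Reg Q (xr R X) (xr R Y)) : ∃ w0 ∈ Reg Q x y, ‖w - w0‖ ≤ 2 * κ := by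
  obtain ⟨c, hc, ⟨h1, h2⟩, h3, h4⟩ := hw
  have kc := hQ c hc
  obtain ⟨a, a1, a2, a3⟩ := clamp h1 h2 (H.nx c.1 kc.1.1 (by omega)) (H.nx (c.1 + 1) (by omega)
    (by omega)) (hx (show c.1 < c.1 + 1 by omega)).le
  obtain ⟨b, b1, b2, b3⟩ := clamp h3 h4 (H.ny c.2 kc.2.1 (by omega)) (H.ny (c.2 + 1) (by omega)
    (by omega)) (hy (show c.2 < c.2 + 1 by omega)).le
  exact ⟨⟨a, b⟩, ⟨c, hc, ⟨a1, a2⟩, b1, b2⟩, norm_le_of a3 b3⟩

/-- points of a closed lattice cell are near points of the open cell -/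
lemma Near.inner (H : Near K κ x y R X Y) (hκ : 0 < κ) {c : Cell}
    (hc : (-K ≤ c.1 ∧ c.1 ≤ K) ∧ (-K ≤ c.2 ∧ c.2 ≤ K)) (gx : x c.1 + 2 * κ ≤ x (c.1 + 1))
    (gy : y c.2 + 2 * κ ≤ y (c.2 + 1)) {w : ℂ} (hw : w ∈ rect (xr R X) (xr R Y) c) :
    ∃ w0 : ℂ, (x c.1 < w0.re ∧ w0.re < x (c.1 + 1)) ∧ (y c.2 < w0.im ∧ w0.im < y (c.2 + 1)) ∧
      ‖w - w0‖ ≤ 4 * κ := by
  obtain ⟨⟨h1, h2⟩, h3, h4⟩ := hw
  have n1 := H.nx c.1 hc.1.1 (by omega)
  have n2 := H.nx (c.1 + 1) (by omega) (by omega)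
  have n3 := H.ny c.2 hc.2.1 (by omega)
  have n4 := H.ny (c.2 + 1) (by omega) (by omega)
  rw [abs_le] at n1 n2 n3 n4
  obtain ⟨a, a1, a2, a3⟩ := clamp (a' := x c.1 + κ) (b' := x (c.1 + 1) - κ) (κ := 2 * κ) h1 h2
    (by rw [abs_le]; constructor <;> linarith) (by rw [abs_le]; constructor <;> linarith)
    (by linarith)
  obtain ⟨b, b1, b2, b3⟩ := clamp (a' := y c.2 + κ) (b' := y (c.2 + 1) - κ) (κ := 2 * κ) h3 h4
    (by rw [abs_le]; constructor <;> linarith) (by rw [abs_le]; constructor <;> linarith)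
    (by linarith)
  refine ⟨⟨a, b⟩, ⟨by simp only; linarith, by simp only; linarith⟩,
    ⟨by simp only; linarith, by simp only; linarith⟩, ?_⟩
  have := norm_le_of (z := w) (w := ⟨a, b⟩) a3 b3
  linarith

lemma spt_conv (x y : ℤ → ℝ) (s : Cell × ℤ) (t : ℝ) :
    spt x y s t = ((1 - t : ℝ) : ℂ) * pt x y (tail s) + (t : ℂ) * pt x y (head s) := by
  unfold spt
  rw [pt_head]
  push_cast
  ring

lemma Near.pt (H : Near K κ x y R X Y) {p : ℤ × ℤ} (h1 : -K ≤ p.1 ∧ p.1 ≤ K + 1)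
    (h2 : -K ≤ p.2 ∧ p.2 ≤ K + 1) :
    ‖Pool.Agent.Q1.M4.pt (xr R X) (xr R Y) p - Pool.Agent.Q1.M4.pt x y p‖ ≤ 2 * κ :=
  norm_le_of (H.nx p.1 h1.1 h1.2) (H.ny p.2 h2.1 h2.2)

lemma Near.spt (H : Near K κ x y R X Y) {s : Cell × ℤ}
    (hs : (-K ≤ s.1.1 ∧ s.1.1 ≤ K) ∧ (-K ≤ s.1.2 ∧ s.1.2 ≤ K)) {t : ℝ}
    (ht : t ∈ Set.Icc (0 : ℝ) 1) :
    ‖Pool.Agent.H19.RH.spt (xr R X) (xr R Y) s t - Pool.Agent.H19.RH.spt x y s t‖ ≤ 2 * κ := by
  have b1 : (-K ≤ (tail s).1 ∧ (tail s).1 ≤ K + 1) ∧ (-K ≤ (tail s).2 ∧ (tail s).2 ≤ K + 1) := by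
    unfold tail
    split_ifs <;> (try simp only [Prod.fst_add, Prod.snd_add]) <;> omega
  have b2 : (-K ≤ (head s).1 ∧ (head s).1 ≤ K + 1) ∧ (-K ≤ (head s).2 ∧ (head s).2 ≤ K + 1) := by
    unfold head tail
    rcases dir_cases s.2 with ⟨a, e⟩ | ⟨a, e⟩ | ⟨a, e⟩ | ⟨a, e⟩ <;> rw [e] <;> simp [a] <;> omega
  have h1 := H.pt b1.1 b1.2
  have h2 := H.pt b2.1 b2.2
  rw [spt_conv, spt_conv]
  obtain ⟨t0, t1⟩ := ht
  have e : ((1 - t : ℝ) : ℂ) * Pool.Agent.Q1.M4.pt (xr R X) (xr R Y) (tail s) +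
      (t : ℂ) * Pool.Agent.Q1.M4.pt (xr R X) (xr R Y) (head s) -
      (((1 - t : ℝ) : ℂ) * Pool.Agent.Q1.M4.pt x y (tail s) +
      (t : ℂ) * Pool.Agent.Q1.M4.pt x y (head s)) =
      ((1 - t : ℝ) : ℂ) * (Pool.Agent.Q1.M4.pt (xr R X) (xr R Y) (tail s) -
        Pool.Agent.Q1.M4.pt x y (tail s)) +
      (t : ℂ) * (Pool.Agent.Q1.M4.pt (xr R X) (xr R Y) (head s) -
        Pool.Agent.Q1.M4.pt x y (head s)) := by ring
  rw [e]
  refine (norm_add_le _ _).trans ?_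
  rw [norm_mul, norm_mul, Complex.norm_real, Complex.norm_real, Real.norm_of_nonneg t0,
    Real.norm_of_nonneg (sub_nonneg.2 t1)]
  nlinarith [mul_le_mul_of_nonneg_left h1 (sub_nonneg.2 t1), mul_le_mul_of_nonneg_left h2 t0]

/-- the vertices of a side are near the side -/
lemma Near.side (H : Near K κ x y R X Y) (hQ : InK K P.Q) {n : ℕ} {u : ℤ × ℤ}
    (hu : sV X Y (P.side n) u) :
    ∃ t ∈ Set.Icc (0 : ℝ) 1, ‖ps (1 / R) u - P.sidePt x y n t‖ ≤ 2 * κ := by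
  obtain ⟨t, ht, e⟩ := (onR_spt (xr_mono H.R0 H.hX) (xr_mono H.R0 H.hY)).1 ((onR_ps H.R0).2 hu)
  refine ⟨t, ht, ?_⟩
  rw [sidePt_spt, e]
  exact H.spt (hQ _ (P.side_isSide n).1) ht

end near

end Pool.Agent.H33.C3
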