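import Mathlib
import Pool.Agent.H33.C3.Pos
import Pool.Agent.H5.C3.Stm

set_option autoImplicit false
open Finset Filter Topology

/-! # Crossing events of grid polygons, III: the bounds of `CI` by the shapes (T8) -/

namespace Pool.Agent.H33.C3

open Pool.Agent.H75.Perc (Pr)
open Pool.Agent.Q1.M4 (Cell Reg Om rect mem_rect mem_Om IsSide PType inV inRect pt frontier_Om
  closure_Om isOpen_Om isBounded_Om isBounded_Reg)
open Pool.Agent.Q1.M5 (sV sL WL EL TV CT CI App)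
open Pool.Agent.H57.FM (ps Cross PC ps_re ps_im)
open Pool.Agent.H19.RH (spt sidePt_spt)
open Pool.Agent.H5.FM (T0 OnS UpG LoG)
open Pool.Agent.H5.C3 (sdR arR StCIU StCIL)
open Pool.Agent.H21.FM
open Pool.Agent.H79.FM (cc gz sh approx floor_top up_prob lo_prob)

variable {P : PType} {x y : ℤ → ℝ}

lemma mem_sdR {n : ℕ} {z : ℂ} :
    z ∈ sdR P x y n ↔ ∃ t ∈ Set.Icc (0 : ℝ) 1, z = P.sidePt x y n t := by
  unfold sdR
  rw [segment_eq_image']
  constructor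
  · rintro ⟨t, ht, rfl⟩
    exact ⟨t, ht, rfl⟩
  · rintro ⟨t, ht, rfl⟩
    exact ⟨t, ht, rfl⟩

lemma mem_arR {a b : ℕ} {z : ℂ} : z ∈ arR P x y a b ↔
    ∃ n, (a ≤ n ∧ n < b) ∧ ∃ t ∈ Set.Icc (0 : ℝ) 1, z = P.sidePt x y n t := by
  unfold arR
  simp only [Set.mem_iUnion, exists_prop, mem_sdR]
  rfl

/-- the lattice points of an arc -/
def Av (P : PType) (X Y : ℤ → ℤ) (δ : ℝ) (a b : ℕ) : Set ℂ :=
  {z | ∃ n, a ≤ n ∧ n < b ∧ ∃ v, sV X Y (P.side n) v ∧ z = ps δ v}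

/-- fattened set -/
def Fat (κ : ℝ) (N : Set ℂ) : Set ℂ := {z | ∃ w ∈ N, ‖z - w‖ ≤ κ}

lemma sub_Fat {κ : ℝ} (hκ : 0 ≤ κ) (N : Set ℂ) : N ⊆ Fat κ N := fun z hz =>
  ⟨z, hz, by rw [sub_self, norm_zero]; exact hκ⟩

section

variable {K : ℤ} {κ R : ℝ} {X Y : ℤ → ℤ}

/-- points of the lattice region are near the open polygon -/
lemma Near.om (H : Near K κ x y R X Y) (hκ : 0 < κ) (hx : StrictMono x) (hy : StrictMono y)
    (hQ : InK K P.Q) {w : ℂ} (hw : w ∈ Reg P.Q (xr R X) (xr R Y)) :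
    ∃ w0 ∈ Om P.Q x y, ‖w - w0‖ ≤ 3 * κ := by
  obtain ⟨w1, h1, h2⟩ := H.reg hx hy hQ hw
  rw [← closure_Om hx hy, Metric.mem_closure_iff] at h1
  obtain ⟨w0, h3, h4⟩ := h1 κ hκ
  refine ⟨w0, h3, ?_⟩
  rw [dist_eq_norm] at h4
  have e : w - w0 = (w - w1) + (w1 - w0) := by ring
  rw [e]
  refine (norm_add_le _ _).trans ?_
  linarith

lemma Near.arc (H : Near K κ x y R X Y) (hQ : InK K P.Q) {a b : ℕ} {z : ℂ}
    (hz : z ∈ Av P X Y (1 / R) a b) : ∃ w ∈ arR P x y a b, ‖z - w‖ ≤ 2 * κ := by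
  obtain ⟨n, h1, h2, v, hv, rfl⟩ := hz
  obtain ⟨t, ht, h3⟩ := H.side hQ hv
  exact ⟨_, mem_arR.2 ⟨n, ⟨h1, h2⟩, t, ht, rfl⟩, h3⟩

/-- the position `UpG` for the lattice region -/
lemma upG_near (H : Near K κ x y R X Y) (hx : StrictMono x) (hy : StrictMono y)
    (hQ : InK K P.Q) {S : Shape} {e ρ : ℝ} {z1 : ℂ} {N2 N4 : Set ℂ} {a b c d : ℕ}
    (U : UpG S e z1 (Om P.Q x y) (arR P x y a b) (arR P x y c d) ρ N2 N4) (hκ : 0 < κ)
    (hκρ : κ ≤ ρ / 16) :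
    UpG S e z1 (Reg P.Q (xr R X) (xr R Y)) (Av P X Y (1 / R) a b) (Av P X Y (1 / R) c d) (ρ / 2)
      (Fat (2 * κ) N2) (Fat (2 * κ) N4) := by
  have hρ := U.ρ0
  have s2 := sub_Fat (κ := 2 * κ) (by linarith) N2
  have s4 := sub_Fat (κ := 2 * κ) (by linarith) N4
  have tri : ∀ {p q w w0 : ℂ} {r : ℝ}, ‖w - w0‖ ≤ r → ‖p - w0‖ ≤ ‖p - w‖ + r := by
    intro p q w w0 r h
    have e1 : p - w0 = (p - w) + (w - w0) := by ring
    rw [e1]
    exact (norm_add_le _ _).trans (by linarith)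
  have far : ∀ {z w : ℂ}, w ∈ Reg P.Q (xr R X) (xr R Y) → 
      (∀ w0 ∈ Om P.Q x y, ρ ≤ ‖z - w0‖) → ρ / 2 ≤ ‖z - w‖ := by
    intro z w hw h
    obtain ⟨w0, h0, h1⟩ := H.om hκ hx hy hQ hw
    have h2 := h w0 h0
    have h3 := tri (p := z) (q := 0) h1
    linarith
  constructor
  · exact U.e0
  · linarith
  · intro z w hw h1 h2
    obtain ⟨w0, h0, h3⟩ := H.om hκ hx hy hQ hw
    have h4 := tri (p := T0 e z1 z) (q := 0) h3
    rcases U.cov z w0 h0 (by linarith) h2 with h5 | h5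
    · exact Or.inl (s2 h5)
    · exact Or.inr (s4 h5)
  · intro i hi z hz w hw
    exact far hw (U.free i hi z hz)
  · intro i h1 h2 z hz
    exact s2 (U.two i h1 h2 z hz)
  · intro i h1 h2 z hz
    exact s4 (U.four i h1 h2 z hz)
  · rintro z ⟨z', h1, h2⟩ w ⟨w', h3, h4⟩
    have h5 := U.sep z' h1 w' h3
    have e1 : z' - w' = -(z - z') + (z - w) + (w - w') := by ring
    rw [e1] at h5
    have h6 := norm_add_le (-(z - z') + (z - w)) (w - w')
    have h7 := norm_add_le (-(z - z')) (z - w)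
    rw [norm_neg] at h7
    linarith
  · intro z hz
    obtain ⟨w, h1, h2⟩ := H.arc hQ hz
    exact ⟨w, U.A2 h1, h2⟩
  · intro z hz
    obtain ⟨w, h1, h2⟩ := H.arc hQ hz
    exact ⟨w, U.B4 h1, h2⟩
  · intro p hp z hz
    obtain ⟨w, h1, h2⟩ := H.arc hQ hp
    have h3 := U.Ar w h1 z hz
    have h4 := tri (p := T0 e z1 z) (q := 0) h2
    linarith
  · intro p hp z hz
    obtain ⟨w, h1, h2⟩ := H.arc hQ hp
    have h3 := U.Br w h1 z hz
    have h4 := tri (p := T0 e z1 z) (q := 0) h2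
    linarith

end

/-- a side near an arc is a side of the arc -/
lemma side_of_near (hx : StrictMono x) (hy : StrictMono y) {a b : ℕ} (hb : b ≤ P.N) {N2 : Set ℂ}
    {ρ : ℝ} (hA : ∀ p ∈ frontier (Om P.Q x y), ∀ z ∈ N2, ‖p - z‖ < ρ → p ∈ arR P x y a b)
    {z : ℂ} (hz : z ∈ N2) {n : ℕ} (hn : n < P.N) {t : ℝ} (ht : t ∈ Set.Icc (0 : ℝ) 1)
    (h : ‖P.sidePt x y n t - z‖ < ρ) : a ≤ n ∧ n < b := by
  obtain ⟨s, hs, h1⟩ : ∃ s ∈ Set.Ioo (0 : ℝ) 1, ‖P.sidePt x y n s - z‖ < ρ := by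
    have hcl : t ∈ closure (Set.Ioo (0 : ℝ) 1) := by
      rw [closure_Ioo (by norm_num)]; exact ht
    have hc : Continuous fun s : ℝ => ‖P.sidePt x y n s - z‖ :=
      ((Pool.Agent.H19.RH.sidePt_continuous P n).sub continuous_const).norm
    have ho : IsOpen {s : ℝ | ‖P.sidePt x y n s - z‖ < ρ} := isOpen_lt hc continuous_const
    obtain ⟨s, hs1, hs2⟩ := mem_closure_iff.1 hcl _ ho h
    exact ⟨s, hs2, hs1⟩
  have h2 := hA _ (P.sidePt_mem_frontier hx hy n (Set.Ioo_subset_Icc_self hs)) z hz h1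
  rw [mem_arR] at h2
  obtain ⟨n', ⟨h3, h4⟩, t', ht', h5⟩ := h2
  have hn' : n' < P.N := by omega
  have h6 : n = n' := by
    rcases eq_or_lt_of_le ht'.1 with e | e
    · exfalso
      rw [← e, P.sidePt_zero, P.sidePt_eq] at h5
      exact Pool.Agent.Q1.M4.open_side_ne hx hy (P.side n) hs _ h5
    · rcases eq_or_lt_of_le ht'.2 with e' | e'
      · exfalso
        rw [e', P.sidePt_one, P.sidePt_eq] at h5
        exact Pool.Agent.Q1.M4.open_side_ne hx hy (P.side n) hs _ h5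
      · exact (Pool.Agent.H19.RH.open_side_inj P hx hy hn hn' hs ⟨e, e'⟩ h5).1
  omega

section

variable {K : ℤ} {κ R : ℝ} {X Y : ℤ → ℤ}

/-- the region pushed out by less than one lattice unit -/
def Dt (P : PType) (R : ℝ) (X Y : ℤ → ℤ) : Set ℂ :=
  Metric.thickening (9 / 10 / R) (Reg P.Q (xr R X) (xr R Y))

/-- points which are near lattice points of the arc only -/
def Ap (P : PType) (R : ℝ) (X Y : ℤ → ℤ) (a b : ℕ) : Set ℂ :=
  {p | ∀ u, inV P.Q X Y u → dist (ps (1 / R) u) p ≤ 1 / R →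
    ∃ n, a ≤ n ∧ n < b ∧ sV X Y (P.side n) u}

lemma line_cover {i : ℤ} {s : ℝ} (h1 : x i ≤ s) (h2 : s ≤ x (i + 1))
    (g0 : x (i - 1) + 2 * κ ≤ x i) (g1 : x (i + 1) + 2 * κ ≤ x (i + 1 + 1))
    (n0 : |xr R X (i - 1) - x (i - 1)| ≤ κ) (n3 : |xr R X (i + 1 + 1) - x (i + 1 + 1)| ≤ κ) :
    ∃ i', (i - 1 ≤ i' ∧ i' ≤ i + 1) ∧ xr R X i' ≤ s ∧ s ≤ xr R X (i' + 1) := by
  rw [abs_le] at n0 n3
  rcases lt_or_ge s (xr R X i) with h3 | h3
  · refine ⟨i - 1, ⟨le_rfl, by omega⟩, by linarith, ?_⟩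
    rw [sub_add_cancel]
    exact h3.le
  · rcases le_or_gt s (xr R X (i + 1)) with h4 | h4
    · exact ⟨i, ⟨by omega, by omega⟩, h3, h4⟩
    · exact ⟨i + 1, ⟨by omega, le_rfl⟩, h4.le, by linarith⟩

/-- the position `LoG` for the lattice region -/
lemma loG_near (H : Near K κ x y R X Y) (hx : StrictMono x) (hy : StrictMono y)
    (hQ : InK (K - 2) P.Q) {S : Shape} {e ρ : ℝ} {z1 : ℂ} {N2 N4 : Set ℂ} {a b c d : ℕ}
    (hb : b ≤ P.N) (hd : d ≤ P.N)
    (U : LoG S e z1 (Om P.Q x y) (arR P x y a b) (arR P x y c d) ρ N2 N4) (hκ : 0 < κ)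
    (hκρ : κ ≤ ρ / 16) (hR : 1 / R ≤ κ) (gx : ∀ i, -K ≤ i → i ≤ K → x i + 2 * κ ≤ x (i + 1))
    (gy : ∀ i, -K ≤ i → i ≤ K → y i + 2 * κ ≤ y (i + 1)) :
    LoG S e z1 (Dt P R X Y) (Ap P R X Y a b) (Ap P R X Y c d) (ρ / 2) N2 N4 := by
  have hρ := U.ρ0
  have hR0 := H.R0
  have hR1 : 9 / 10 / R ≤ κ := by
    have : 9 / 10 / R ≤ 1 / R := by
      apply div_le_div_of_nonneg_right (by norm_num) hR0.le
    linarith
  have hQ' : InK K P.Q := hQ.mono (by omega)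
  have h910 : 0 < 9 / 10 / R := by positivity
  have far : ∀ {z w : ℂ}, w ∈ Dt P R X Y → 
      (∀ w0 ∈ Om P.Q x y, ρ ≤ ‖z - w0‖) → ρ / 2 ≤ ‖z - w‖ := by
    intro z w hw h
    unfold Dt at hw
    rw [Metric.mem_thickening_iff] at hw
    obtain ⟨w1, g1, g2⟩ := hw
    rw [dist_eq_norm] at g2
    obtain ⟨w0, h0, h1⟩ := H.om hκ hx hy hQ' g1
    have h2 := h w0 h0
    have e1 : z - w0 = (z - w) + (w - w1) + (w1 - w0) := by ring
    rw [e1] at h2
    have h6 := norm_add_le ((z - w) + (w - w1)) (w1 - w0)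
    have h7 := norm_add_le (z - w) (w - w1)
    linarith
  have arc : ∀ {a b : ℕ} {N : Set ℂ}, b ≤ P.N →
      (∀ p ∈ frontier (Om P.Q x y), ∀ z ∈ N, ‖p - z‖ < ρ → p ∈ arR P x y a b) →
      ∀ p ∈ frontier (Dt P R X Y), ∀ z ∈ N, ‖p - z‖ < ρ / 2 → p ∈ Ap P R X Y a b := by
    intro a b N hb hA p hp z hz h1 u hu h2
    have hpn : p ∉ Reg P.Q (xr R X) (xr R Y) := by
      intro h3
      have h4 : p ∈ Dt P R X Y := Metric.self_subset_thickening h910 _ h3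
      have ho : IsOpen (Dt P R X Y) := Metric.isOpen_thickening
      rw [frontier, ho.interior_eq] at hp
      exact hp.2 h4
    rw [dist_eq_norm] at h2
    obtain ⟨n, hn, hs⟩ := bd_vertex H.hX H.hY hR0 hu hpn h2
    obtain ⟨t, ht, h3⟩ := H.side hQ' hs
    have h4 : ‖P.sidePt x y n t - z‖ < ρ := by
      have e1 : P.sidePt x y n t - z = -(ps (1 / R) u - P.sidePt x y n t) + (ps (1 / R) u - p) +
        (p - z) := by ring
      rw [e1]
      have h6 := norm_add_le (-(ps (1 / R) u - P.sidePt x y n t) + (ps (1 / R) u - p)) (p - z)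
      have h7 := norm_add_le (-(ps (1 / R) u - P.sidePt x y n t)) (ps (1 / R) u - p)
      rw [norm_neg] at h7
      linarith
    obtain ⟨h5, h6⟩ := side_of_near hx hy hb hA hz hn ht h4
    exact ⟨n, h5, h6, hs⟩
  constructor
  · exact U.e0
  · linarith
  · intro z hz
    rcases U.cov z hz with h1 | h1 | h1
    · left
      intro w hw
      have hwO := h1 w (by linarith)
      obtain ⟨c0, hc0, ⟨a1, a2⟩, a3, a4⟩ := Pool.Agent.Q1.M4.Om_subset _ _ _ hwO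
      have kc := hQ c0 hc0
      have e0 : ∀ k : ℤ, k - 1 + 1 = k := fun k => by ring
      have gx0 := gx (c0.1 - 1) (by omega) (by omega)
      have gy0 := gy (c0.2 - 1) (by omega) (by omega)
      rw [e0] at gx0 gy0
      obtain ⟨i, hi, i1, i2⟩ := line_cover (X := X) (R := R) a1 a2 gx0
        (gx (c0.1 + 1) (by omega) (by omega)) (H.nx _ (by omega) (by omega))
        (H.nx _ (by omega) (by omega))
      obtain ⟨k, hk, k1, k2⟩ := line_cover (X := Y) (R := R) a3 a4 gy0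
        (gy (c0.2 + 1) (by omega) (by omega)) (H.ny _ (by omega) (by omega))
        (H.ny _ (by omega) (by omega))
      obtain ⟨w0, b1, b2, b3⟩ := H.inner hκ (c := (i, k)) ⟨⟨by simp only; omega, by simp only; omega⟩,
        by simp only; omega, by simp only; omega⟩ (gx i (by omega) (by omega))
        (gy k (by omega) (by omega)) (w := w) ⟨⟨i1, i2⟩, k1, k2⟩
      have hw0 : w0 ∈ Om P.Q x y := by
        apply h1
        have e1 : w0 - T0 e z1 z = -(w - w0) + (w - T0 e z1 z) := by ring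
        rw [e1]
        have h7 := norm_add_le (-(w - w0)) (w - T0 e z1 z)
        rw [norm_neg] at h7
        linarith
      have hc : ((i, k) : Cell) ∈ P.Q := ((mem_Om hx hy).1 hw0).2 (i, k)
        ⟨⟨b1.1.le, b1.2.le⟩, b2.1.le, b2.2.le⟩
      exact Metric.self_subset_thickening h910 _ ⟨(i, k), hc, ⟨i1, i2⟩, k1, k2⟩
    · exact Or.inr (Or.inl h1)
    · exact Or.inr (Or.inr h1)
  · intro i h1 h2 z hz
    obtain ⟨h3, h4⟩ := U.two i h1 h2 z hz
    exact ⟨h3, fun w hw => far hw h4⟩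
  · intro i h1 h2 z hz
    obtain ⟨h3, h4⟩ := U.four i h1 h2 z hz
    exact ⟨h3, fun w hw => far hw h4⟩
  · intro z hz w hw
    have := U.sep z hz w hw
    linarith
  · exact arc hb U.A2
  · exact arc hd U.B4

end

/-! ### Limits -/

lemma inv_tendsto {R : ℕ → ℝ} (hR : Tendsto R atTop atTop) :
    Tendsto (fun j => 1 / R j) atTop (𝓝[>] (0 : ℝ)) := by
  simp only [one_div]
  exact tendsto_inv_atTop_nhdsGT_zero.comp hR

theorem stCIU : StCIU := by
  intro P x y n1 n2 hx hy h01 h12 h2m S e ρ N2 N4 U q hq R X Y hA ε hε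
  obtain ⟨K, hK⟩ := exists_InK P.Q 2
  have hK' : InK K P.Q := hK.mono (by omega)
  have hρ := U.ρ0
  obtain ⟨M0, hM0⟩ := (isBounded_Om P.Q x y).exists_norm_le
  have hη : 0 < ρ / 2 / 7 := by positivity
  have hR := inv_tendsto hA.app.R_top
  have h1 := hR.eventually (approx U.e0 0 (M0 + 3 * (ρ / 16)) hη)
  have h2 := (hq.comp ((floor_top U.e0).comp hR)).eventually
    (lt_mem_nhds (show q - ε < q by linarith))
  filter_upwards [near_of_app hx hy hA K (show (0 : ℝ) < ρ / 16 by positivity), h1, h2]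
    with j H g1 g2
  obtain ⟨k1, k2, k3, k4⟩ := g1
  have U' := upG_near H hx hy hK' U (by positivity) le_rfl
  have hb : Bornology.IsBounded (Reg P.Q (xr (R j) (X j)) (xr (R j) (Y j))) :=
    isBounded_Reg _ _ _
  have h3 := up_prob hb U' k3 k1 (sh 0 (1 / R j)) (η := ρ / 2 / 7) (by linarith)
    (fun w hw => k4 w (Or.inl (by
      obtain ⟨w0, h5, h6⟩ := H.om (by positivity) hx hy hK' hw
      have h7 := hM0 _ h5
      have e1 : ps (1 / R j) (w + sh 0 (1 / R j)) =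
        (ps (1 / R j) (w + sh 0 (1 / R j)) - w0) + w0 := by ring
      rw [e1]
      exact (norm_add_le _ _).trans (by linarith))))
  have h4 : Pr (EL P (X j) (Y j)) (CI P (X j) (Y j) n1 n2) ≤
      PC (Reg P.Q (xr (R j) (X j)) (xr (R j) (Y j))) (Av P (X j) (Y j) (1 / R j) n1 n2)
        (Av P (X j) (Y j) (1 / R j) P.m P.N) (1 / R j) := by
    apply Pr_CI_le hb k1
    · intro v hv
      exact (ps_mem_Reg H.R0).2 hv
    · intro n a1 a2 v hv
      exact ⟨n, a1, a2, v, hv, rfl⟩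
    · rintro v ⟨n, a1, a2, hv⟩
      exact ⟨n, a1, a2, v, hv, rfl⟩
  simp only [Function.comp_apply] at g2
  linarith

lemma exists_gap {x : ℤ → ℝ} (hx : StrictMono x) (K : ℤ) :
    ∀ᶠ κ in 𝓝[>] (0 : ℝ), ∀ i, -K ≤ i → i ≤ K → x i + 2 * κ ≤ x (i + 1) := by
  have h : ∀ᶠ κ in 𝓝[>] (0 : ℝ), ∀ i ∈ Finset.Icc (-K) K, x i + 2 * κ ≤ x (i + 1) := by
    refine (Filter.eventually_all_finset _).2 fun i _ => ?_
    have h1 : x i < x (i + 1) := hx (by omega)
    filter_upwards [Ioo_mem_nhdsGT (show (0 : ℝ) < (x (i + 1) - x i) / 2 by linarith)] with κ hκ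
    linarith [hκ.2]
  filter_upwards [h] with κ hκ i h1 h2
  exact hκ i (Finset.mem_Icc.2 ⟨h1, h2⟩)

theorem stCIL : StCIL := by
  intro P x y n1 n2 hx hy h01 h12 h2m S e ρ N2 N4 U q hq R X Y hA ε hε
  obtain ⟨K, hK⟩ := exists_InK P.Q 2
  have hρ := U.ρ0
  have hmN := P.hmN
  have hIoo : ∀ᶠ κ in 𝓝[>] (0 : ℝ), κ ∈ Set.Ioo (0 : ℝ) (ρ / 16) :=
    Ioo_mem_nhdsGT (show (0 : ℝ) < ρ / 16 by positivity)
  obtain ⟨κ, ⟨hκ0, hκ1⟩, gx, gy⟩ := (hIoo.and ((exists_gap hx K).and (exists_gap hy K))).exists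
  obtain ⟨K1, hK1⟩ := (Pool.Agent.H79.FM.isBounded_Reg S.P.Q).exists_norm_le
  set M : ℝ := e * (2 * K1) with hMdef
  have hM : ∀ z ∈ Reg S.P.Q gz gz, ‖T0 e 0 z‖ ≤ M := by
    intro z hz
    unfold T0
    rw [add_zero, norm_mul, Complex.norm_real, Real.norm_of_nonneg U.e0.le, norm_mul]
    have h1 := hK1 z hz
    have h2 : ‖(1 : ℂ) + Complex.I‖ ≤ 2 := by
      refine (norm_add_le _ _).trans ?_
      rw [norm_one, Complex.norm_I]; norm_num
    have h3 : ‖(1 : ℂ) + Complex.I‖ * ‖z‖ ≤ 2 * K1 :=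
      mul_le_mul h2 h1 (norm_nonneg _) (by norm_num)
    exact mul_le_mul_of_nonneg_left h3 U.e0.le
  have hη : 0 < ρ / 2 / 7 := by positivity
  have hR := inv_tendsto hA.app.R_top
  have h1 := hR.eventually (approx U.e0 0 M hη)
  have h2 := (hq.comp ((floor_top U.e0).comp hR)).eventually
    (gt_mem_nhds (show q < q + ε by linarith))
  filter_upwards [near_of_app hx hy hA K hκ0, h1, h2, hR (Ioo_mem_nhdsGT hκ0)] with j H g1 g2 g3
  obtain ⟨k1, k2, k3, k4⟩ := g1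
  have U' := loG_near H hx hy hK (by omega) le_rfl U hκ0 hκ1.le g3.2.le gx gy
  have hb : Bornology.IsBounded (Dt P (R j) (X j) (Y j)) :=
    (isBounded_Reg _ _ _).thickening
  have h3 := lo_prob hb U' k3 k1 hη.le (sh 0 (1 / R j)) (η := ρ / 2 / 7) (by linarith)
    (fun w hw => k4 w (Or.inr (hM _ hw)))
  have h4 : PC (Dt P (R j) (X j) (Y j)) (Ap P (R j) (X j) (Y j) n1 n2)
      (Ap P (R j) (X j) (Y j) P.m P.N) (1 / R j) ≤
      Pr (EL P (X j) (Y j)) (CI P (X j) (Y j) n1 n2) := by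
    apply le_Pr_CI H.hX H.hY H.gx H.gy (hK.mono (by omega)) hb k1
    · intro v hv
      exact inV_of_near H.R0 hv
    · rintro v hv ⟨a, ha, hd⟩
      exact ha v hv hd
    · rintro v hv ⟨a, ha, hd⟩
      exact ha v hv hd
  simp only [Function.comp_apply] at g2
  linarith

end Pool.Agent.H33.C3
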